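import Pool.Agent.Q149.AR.SD1

/-! # Project AR, job SD: the Galois action on divisors -/

set_option autoImplicit false
set_option linter.unusedSectionVars false
set_option linter.deprecated false

namespace Pool.Agent.Q149.AR

open NumberField IsDedekindDomain Pool.Agent.Q92.AR Pool.Agent.Q5.BR Pool.Agent.TeamU
open scoped nonZeroDivisors

section
variable {F E : Type} [Field F] [NumberField F] [Field E] [NumberField E] [Algebra F E]

/-- SD (1) -/
theorem prin_sE (σ : E ≃ₐ[F] E) (x : Additive Eˣ) : prin (sE σ x).toMul = sD σ (prin x.toMul) := by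
  ext w
  rw [sD_apply, prin_eq_neg_log, prin_eq_neg_log, sE_apply]
  conv_lhs => rw [← act_act_inv σ w]
  rw [val_act]

/-- SD (2) -/
theorem nmD_sD (σ : E ≃ₐ[F] E) (D : Dv E) : nmD F E (sD σ D) = nmD F E D := by
  classical
  ext v
  rw [nmD_apply, nmD_apply]
  refine Finset.sum_bij' (fun w _ => act σ⁻¹ w) (fun w _ => act σ w) ?_ ?_ ?_ ?_ ?_
  · intro w hw
    rw [mem_above, act_under]
    exact mem_above.1 hw
  · intro w hw
    rw [mem_above, act_under]
    exact mem_above.1 hw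
  · intro w _
    exact act_act_inv σ w
  · intro w _
    exact act_inv_act σ w
  · intro w _
    rw [sD_apply, rdeg_act]

theorem above_nonempty (v : HeightOneSpectrum (𝓞 F)) : ∃ w : HeightOneSpectrum (𝓞 E), w.under (𝓞 F) = v := by
  have hvm : v.asIdeal.IsMaximal := v.isMaximal
  obtain ⟨P, hP, hPw⟩ := Ideal.exists_ideal_over_maximal_of_isIntegral (S := 𝓞 E) v.asIdeal (by
    rw [(RingHom.injective_iff_ker_eq_bot _).1 (FaithfulSMul.algebraMap_injective (𝓞 F) (𝓞 E))]
    exact bot_le)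
  have hP0 : P ≠ ⊥ := by
    rintro rfl
    apply v.ne_bot
    rw [← hPw, ← RingHom.ker_eq_comap_bot]
    exact (RingHom.injective_iff_ker_eq_bot _).1 (FaithfulSMul.algebraMap_injective (𝓞 F) (𝓞 E))
  exact ⟨⟨P, hP.isPrime, hP0⟩, HeightOneSpectrum.ext hPw⟩

/-- transitivity on the primes above a prime of `F` -/
theorem trans_act [IsGalois F E] {w w' : HeightOneSpectrum (𝓞 E)} (h : w.under (𝓞 F) = w'.under (𝓞 F)) :
    ∃ g : E ≃ₐ[F] E, act g w = w' := by
  have h1 : Over w (w'.under (𝓞 F)) := by rw [← h]; rfl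
  exact exists_act h1 rfl

theorem card_gal [IsGalois F E] : Nat.card (E ≃ₐ[F] E) = Module.finrank F E := IsGalois.card_aut_eq_finrank F E

/-- the number of automorphisms moving `w` to `w'` -/
theorem card_move [IsGalois F E] {v : HeightOneSpectrum (𝓞 F)} (hv : Unramified E v)
    {w w' : HeightOneSpectrum (𝓞 E)} (hw : w.under (𝓞 F) = v) (hw' : w'.under (𝓞 F) = v) :
    Nat.card {g : E ≃ₐ[F] E // act g w = w'} = rdeg F w' := by
  classical
  have : Fintype (E ≃ₐ[F] E) := Fintype.ofFinite _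
  -- all have the same number
  have h1 : ∀ w1 ∈ above E v, Nat.card {g : E ≃ₐ[F] E // act g w = w1} =
      Nat.card {g : E ≃ₐ[F] E // act g w = w'} := by
    intro w1 hw1
    obtain ⟨h, hh⟩ := trans_act (w := w1) (w' := w') (by rw [mem_above.1 hw1, hw'])
    refine Nat.card_congr ⟨fun g => ⟨h * g.1, by rw [act_mul, g.2, hh]⟩,
      fun g => ⟨h⁻¹ * g.1, by rw [act_mul, g.2, ← hh, act_inv_act]⟩, fun g => ?_, fun g => ?_⟩
    · apply Subtype.ext
      simp
    · apply Subtype.ext
      simp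
  have h2 : ∀ w1 ∈ above E v, rdeg F w1 = rdeg F w' := by
    intro w1 hw1
    obtain ⟨h, hh⟩ := trans_act (w := w1) (w' := w') (by rw [mem_above.1 hw1, hw'])
    rw [← hh, rdeg_act]
  have h3 := sum_rdeg hv
  rw [Finset.sum_congr rfl h2, Finset.sum_const, smul_eq_mul] at h3
  have h4 : ∑ w1 ∈ above E v, Nat.card {g : E ≃ₐ[F] E // act g w = w1} = Module.finrank F E := by
    rw [← card_gal, Nat.card_eq_fintype_card, ← Finset.card_univ,
      Finset.card_eq_sum_card_fiberwise (f := fun g : E ≃ₐ[F] E => act g w) (t := above E v)]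
    · refine Finset.sum_congr rfl fun w1 _ => ?_
      rw [Nat.card_eq_fintype_card, Fintype.card_subtype]
    · intro g _
      have : (act g w).under (𝓞 F) = v := by rw [act_under, hw]
      exact mem_above.2 this
  rw [Finset.sum_congr rfl h1, Finset.sum_const, smul_eq_mul, ← h3] at h4
  have h5 : 0 < (above E v).card := Finset.card_pos.2 ⟨w, mem_above.2 hw⟩
  exact Nat.eq_of_mul_eq_mul_left h5 h4

/-- sums over a cyclic group -/
theorem sum_range_cyclic [IsGalois F E] {σ : E ≃ₐ[F] E} (hσ : ∀ g : E ≃ₐ[F] E, g ∈ Subgroup.zpowers σ)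
    (f : (E ≃ₐ[F] E) → ℤ) [Fintype (E ≃ₐ[F] E)] :
    ∑ i ∈ Finset.range (Module.finrank F E), f (σ ^ i) = ∑ g : E ≃ₐ[F] E, f g := by
  classical
  have ho : orderOf σ = Module.finrank F E := by
    rw [← card_gal, orderOf_eq_card_of_forall_mem_zpowers hσ]
  rw [← ho]
  refine Finset.sum_bij (fun i _ => σ ^ i) (fun _ _ => Finset.mem_univ _) ?_ ?_ (fun _ _ => rfl)
  · intro i hi j hj h
    exact pow_injOn_Iio_orderOf (Finset.mem_range.1 hi) (Finset.mem_range.1 hj) h
  · intro g _
    have h1 := hσ g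
    rw [← mem_powers_iff_mem_zpowers, (isOfFinOrder_of_finite σ).mem_powers_iff_mem_range_orderOf] at h1
    obtain ⟨i, hi, rfl⟩ := Finset.mem_image.1 h1
    exact ⟨i, hi, rfl⟩

/-- SD (4) -/
theorem tr_sD [IsGalois F E] {σ : E ≃ₐ[F] E} (hσ : ∀ g : E ≃ₐ[F] E, g ∈ Subgroup.zpowers σ)
    {N : ℕ} (hN : Ram F E N) {D : Dv E} (hD : D ∈ Pr E N) :
    tr (sD σ) (Module.finrank F E) D = puD F E (nmD F E D) := by
  classical
  have : Fintype (E ≃ₐ[F] E) := Fintype.ofFinite _
  ext w
  rw [puD_apply, nmD_apply, tr_apply, Finsupp.finset_sum_apply]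
  set v := w.under (𝓞 F) with hv
  have h1 : ∀ i ∈ Finset.range (Module.finrank F E), (((sD σ) ^ i) D) w = D (act (σ ^ i)⁻¹ w) :=
    fun i _ => sD_pow_apply σ i D w
  rw [Finset.sum_congr rfl h1, sum_range_cyclic hσ (fun g => D (act g⁻¹ w))]
  rw [Fintype.sum_equiv (Equiv.inv (E ≃ₐ[F] E)) (fun g => D (act g⁻¹ w)) (fun g => D (act g w)) (fun g => rfl)]
  by_cases hu : Unramified E v
  · rw [← Finset.sum_fiberwise_of_maps_to (t := above E v) (g := fun g : E ≃ₐ[F] E => act g w)
      (fun g _ => mem_above.2 (act_under g w))]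
    refine Finset.sum_congr rfl fun w' hw' => ?_
    have h2 : ∀ g ∈ (Finset.univ : Finset (E ≃ₐ[F] E)).filter (fun g => act g w = w'), D (act g w) = D w' :=
      fun g hg => by rw [(Finset.mem_filter.1 hg).2]
    rw [Finset.sum_congr rfl h2, Finset.sum_const, nsmul_eq_mul]
    congr 2
    rw [← card_move hu hv.symm (mem_above.1 hw'), Nat.card_eq_fintype_card, Fintype.card_subtype]
  · have hNv : (N : 𝓞 F) ∈ v.asIdeal := hN v hu
    have h0 : ∀ w' : HeightOneSpectrum (𝓞 E), w'.under (𝓞 F) = v → D w' = 0 := by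
      intro w' hw'
      apply hD
      rw [← hw'] at hNv
      have h3 : algebraMap (𝓞 F) (𝓞 E) (N : 𝓞 F) ∈ w'.asIdeal := hNv
      rwa [map_natCast] at h3
    rw [Finset.sum_eq_zero fun g _ => h0 _ (act_under g w),
      Finset.sum_eq_zero fun w' hw' => by rw [h0 w' (mem_above.1 hw'), mul_zero]]

/-- SD (5) -/
theorem prin_up {N : ℕ} (hN : Ram F E N) {c : Fˣ} (hc : prin c ∈ Pr F N) :
    prin (up F E c) = puD F E (prin c) := by
  ext w
  rw [puD_apply, prin_eq_neg_log, prin_eq_neg_log]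
  have hov : Over w (w.under (𝓞 F)) := rfl
  have h1 : w.valuation E ((up F E c : Eˣ) : E) =
      (w.under (𝓞 F)).valuation F (c : F) ^ ((w.under (𝓞 F)).asIdeal.ramificationIdx' w.asIdeal) :=
    val_over hov (c : F)
  rw [h1]
  by_cases hu : Unramified E (w.under (𝓞 F))
  · have he : Ideal.ramificationIdx' (w.under (𝓞 F)).asIdeal w.asIdeal = 1 := by
      refine Ideal.ramificationIdx'_spec ?_ ?_
      · rw [pow_one, Ideal.map_le_iff_le_comap]
        exact le_of_eq rfl
      · exact hu w rfl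
    rw [he, pow_one]
  · have h2 := hc (w.under (𝓞 F)) (hN _ hu)
    rw [prin_eq_neg_log, neg_eq_zero] at h2
    have h3 : (w.under (𝓞 F)).valuation F (c : F) = 1 := by
      have h4 : (w.under (𝓞 F)).valuation F (c : F) ≠ 0 := (Valuation.ne_zero_iff _).2 c.ne_zero
      rw [← WithZero.exp_log h4, h2, WithZero.exp_zero]
    rw [h3, one_pow]

theorem sD_inv_of_gen [IsGalois F E] {σ : E ≃ₐ[F] E} (hσ : ∀ g : E ≃ₐ[F] E, g ∈ Subgroup.zpowers σ)
    {D : Dv E} (h : sD σ D = D) (g : E ≃ₐ[F] E) (w : HeightOneSpectrum (𝓞 E)) : D (act g w) = D w := by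
  have h1 : ∀ i : ℕ, ((sD σ) ^ i) D = D := by
    intro i
    induction i with
    | zero => rfl
    | succ i ih =>
      rw [pow_succ']
      change sD σ (((sD σ) ^ i) D) = D
      rw [ih, h]
  obtain ⟨i, hi⟩ : ∃ i : ℕ, σ ^ i = g⁻¹ := by
    have h1 := hσ g⁻¹
    rw [← mem_powers_iff_mem_zpowers] at h1
    exact h1
  have h2 := sD_pow_apply σ i D w
  rw [h1 i, hi, inv_inv] at h2
  exact h2.symm

/-- SD (6) -/
theorem exists_puD [IsGalois F E] {σ : E ≃ₐ[F] E} (hσ : ∀ g : E ≃ₐ[F] E, g ∈ Subgroup.zpowers σ)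
    {D : Dv E} (h : sD σ D = D) : ∃ D' : Dv F, D = puD F E D' := by
  classical
  choose w hw using above_nonempty (F := F) (E := E)
  have hwinj : Function.Injective w := by
    intro v v' hvv
    rw [← hw v, ← hw v', hvv]
  have hfin : (Function.support fun v => D (w v)).Finite := by
    have : (Function.support fun v => D (w v)) = w ⁻¹' (D.support : Set (HeightOneSpectrum (𝓞 E))) := by
      ext v
      simp
    rw [this]
    exact (D.support.finite_toSet).preimage hwinj.injOn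
  refine ⟨Finsupp.ofSupportFinite (fun v => D (w v)) hfin, ?_⟩
  ext w'
  rw [puD_apply, Finsupp.ofSupportFinite_coe]
  obtain ⟨g, hg⟩ := trans_act (F := F) (w := w (w'.under (𝓞 F))) (w' := w') (hw _)
  rw [← sD_inv_of_gen hσ h g (w (w'.under (𝓞 F))), hg]

end

end Pool.Agent.Q149.AR
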