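import Pool.Agent.Q149.AR.SD2

/-! # Project AR, job SD: the Galois action on divisors, assembly -/

set_option autoImplicit false
set_option linter.unusedSectionVars false
set_option linter.deprecated false

namespace Pool.Agent.Q149.AR

open NumberField IsDedekindDomain Pool.Agent.Q92.AR Pool.Agent.Q5.BR Pool.Agent.TeamU
open scoped nonZeroDivisors

section
variable {A B : Type} [AddCommGroup A] [AddCommGroup B]

theorem pow_comm' (φ : A →+ B) (α : AddMonoid.End A) (β : AddMonoid.End B) (h : ∀ a, φ (α a) = β (φ a))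
    (i : ℕ) (a : A) : φ ((α ^ i) a) = (β ^ i) (φ a) := by
  induction i generalizing a with
  | zero => rfl
  | succ i ih =>
    rw [pow_succ, pow_succ]
    change φ ((α ^ i) (α a)) = (β ^ i) (β (φ a))
    rw [ih, h]

theorem tr_comm (φ : A →+ B) (α : AddMonoid.End A) (β : AddMonoid.End B) (h : ∀ a, φ (α a) = β (φ a))
    (n : ℕ) (a : A) : φ (tr α n a) = tr β n (φ a) := by
  rw [tr_apply, tr_apply, map_sum]
  exact Finset.sum_congr rfl fun i _ => pow_comm' φ α β h i a

theorem df_comm (φ : A →+ B) (α : AddMonoid.End A) (β : AddMonoid.End B) (h : ∀ a, φ (α a) = β (φ a))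
    (a : A) : φ (df α a) = df β (φ a) := by
  rw [df_apply, df_apply, map_sub, h]

/-- Herbrand quotients under isomorphisms -/
theorem q_equiv (φ : A ≃+ B) (α : AddMonoid.End A) (β : AddMonoid.End B) (h : ∀ a, φ (α a) = β (φ a))
    (n : ℕ) : q0 α n = q0 β n ∧ q1 α n = q1 β n := by
  have ht : ∀ a, φ (tr α n a) = tr β n (φ a) := tr_comm φ.toAddMonoidHom α β h n
  have hd : ∀ a, φ (df α a) = df β (φ a) := df_comm φ.toAddMonoidHom α β h
  have hr : ∀ (f : A →+ A) (g : B →+ B), (∀ a, φ (f a) = g (φ a)) → f.range.map φ.toAddMonoidHom = g.range := by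
    intro f g hfg
    ext b
    constructor
    · rintro ⟨_, ⟨a, rfl⟩, rfl⟩
      exact ⟨φ a, (hfg a).symm⟩
    · rintro ⟨b', rfl⟩
      refine ⟨f (φ.symm b'), ⟨_, rfl⟩, ?_⟩
      change φ (f (φ.symm b')) = _
      rw [hfg, φ.apply_symm_apply]
  have hk : ∀ (f : A →+ A) (g : B →+ B), (∀ a, φ (f a) = g (φ a)) → f.ker.map φ.toAddMonoidHom = g.ker := by
    intro f g hfg
    ext b
    constructor
    · rintro ⟨a, ha, rfl⟩
      change g (φ a) = 0
      rw [← hfg, show f a = 0 from ha, map_zero]
    · intro hb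
      refine ⟨φ.symm b, ?_, φ.apply_symm_apply b⟩
      change f (φ.symm b) = 0
      apply φ.injective
      rw [hfg, φ.apply_symm_apply, map_zero]
      exact hb
  unfold q0 q1
  rw [← hr _ _ ht, ← hk _ _ hd, ← hr _ _ hd, ← hk _ _ ht]
  exact ⟨(AddSubgroup.relIndex_map_map_of_injective _ _ φ.injective).symm,
    (AddSubgroup.relIndex_map_map_of_injective _ _ φ.injective).symm⟩

end

section
variable {F E : Type} [Field F] [NumberField F] [Field E] [NumberField E] [Algebra F E]

/-- SD (7) -/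
theorem q_SupE (hperm : S_Perm) [IsGalois F E] {σ : E ≃ₐ[F] E} (hσ : ∀ g : E ≃ₐ[F] E, g ∈ Subgroup.zpowers σ)
    {T : Set (HeightOneSpectrum (𝓞 F))} (hT : T.Finite) (ι : AddMonoid.End (SupE F E T))
    (hι : IsRes (sD σ) ι) :
    q0 ι (Module.finrank F E) ≠ 0 ∧ q1 ι (Module.finrank F E) = 1 := by
  classical
  have hTf : Finite T := hT
  have hXf : Finite {w : HeightOneSpectrum (𝓞 E) // w.under (𝓞 F) ∈ T} := by
    have h1 : {w : HeightOneSpectrum (𝓞 E) | w.under (𝓞 F) ∈ T} = ⋃ v ∈ T, {w | w.under (𝓞 F) = v} := by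
      ext w
      simp
    have h2 : {w : HeightOneSpectrum (𝓞 E) | w.under (𝓞 F) ∈ T}.Finite := by
      rw [h1]
      exact hT.biUnion fun v _ => above_finite v
    exact h2
  have : Fintype T := Fintype.ofFinite _
  have : Fintype {w : HeightOneSpectrum (𝓞 E) // w.under (𝓞 F) ∈ T} := Fintype.ofFinite _
  have hfinG : Finite (E ≃ₐ[F] E) := inferInstance
  -- the permutation
  let e : Equiv.Perm {w : HeightOneSpectrum (𝓞 E) // w.under (𝓞 F) ∈ T} :=
    { toFun := fun w => ⟨act σ⁻¹ w.1, by rw [act_under]; exact w.2⟩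
      invFun := fun w => ⟨act σ w.1, by rw [act_under]; exact w.2⟩
      left_inv := fun w => Subtype.ext (act_act_inv σ w.1)
      right_inv := fun w => Subtype.ext (act_inv_act σ w.1) }
  have he : ∀ w, (e w).1 = act σ⁻¹ w.1 := fun w => rfl
  have hek : ∀ (k : ℕ) w, ((e ^ k) w).1 = act ((σ⁻¹) ^ k) w.1 := by
    intro k
    induction k with
    | zero => intro w; rw [pow_zero, pow_zero, act_one]; rfl
    | succ k ih =>
      intro w
      rw [pow_succ, Equiv.Perm.mul_apply, ih, he, pow_succ, act_mul]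
  have ho : orderOf σ = Module.finrank F E := by
    rw [← card_gal, orderOf_eq_card_of_forall_mem_zpowers hσ]
  have hn0 : 0 < Module.finrank F E := by rw [← ho]; exact orderOf_pos σ
  have hen : e ^ (Module.finrank F E) = 1 := by
    ext w
    rw [hek, ← ho, inv_pow, pow_orderOf_eq_one, inv_one, act_one]
    rfl
  let π : {w : HeightOneSpectrum (𝓞 E) // w.under (𝓞 F) ∈ T} → T := fun w => ⟨w.1.under (𝓞 F), w.2⟩
  have hπ : Function.Surjective π := by
    rintro ⟨v, hv⟩
    obtain ⟨w, hw⟩ := above_nonempty (E := E) v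
    exact ⟨⟨w, by rw [hw]; exact hv⟩, Subtype.ext hw⟩
  have horb : ∀ x x', π x = π x' ↔ ∃ k : ℕ, (e ^ k) x = x' := by
    intro x x'
    constructor
    · intro h
      have h1 : x.1.under (𝓞 F) = x'.1.under (𝓞 F) := congrArg Subtype.val h
      obtain ⟨g, hg⟩ := trans_act h1
      obtain ⟨k, hk⟩ : ∃ k : ℕ, (σ⁻¹) ^ k = g := by
        have h2 : g ∈ Subgroup.zpowers σ⁻¹ := by
          rw [Subgroup.zpowers_inv]
          exact hσ g
        rw [← mem_powers_iff_mem_zpowers] at h2
        exact h2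
      exact ⟨k, Subtype.ext (by rw [hek, hk, hg])⟩
    · rintro ⟨k, rfl⟩
      apply Subtype.ext
      change x.1.under (𝓞 F) = ((e ^ k) x).1.under (𝓞 F)
      rw [hek, act_under]
  -- the orders of the orbits divide the order of the group
  have hdiv : ∀ y : T, Nat.card {x // π x = y} ∣ Module.finrank F E := by
    intro y
    let _ := galMulAction F E
    obtain ⟨x0, hx0⟩ := hπ y
    have h1 : Nat.card {x // π x = y} = Nat.card (MulAction.orbit (E ≃ₐ[F] E) x0.1) := by
      refine Nat.card_congr ⟨fun x => ⟨x.1.1, ?_⟩, fun z => ⟨⟨z.1, ?_⟩, ?_⟩, fun x => ?_, fun z => ?_⟩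
      · have h2 : x0.1.under (𝓞 F) = x.1.1.under (𝓞 F) := by
          have h3 : π x0 = π x.1 := by rw [hx0, x.2]
          exact congrArg Subtype.val h3
        obtain ⟨g, hg⟩ := trans_act h2
        exact ⟨g, hg⟩
      · obtain ⟨g, hg⟩ := z.2
        have h2 : z.1 = act g x0.1 := hg.symm
        rw [h2, act_under]
        exact x0.2
      · obtain ⟨g, hg⟩ := z.2
        have h2 : z.1 = act g x0.1 := hg.symm
        rw [← hx0]
        apply Subtype.ext
        change z.1.under (𝓞 F) = x0.1.under (𝓞 F)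
        rw [h2, act_under]
      · rfl
      · rfl
    rw [h1, ← card_gal, Nat.card_congr (MulAction.orbitEquivQuotientStabilizer (E ≃ₐ[F] E) x0.1)]
    exact (MulAction.stabilizer (E ≃ₐ[F] E) x0.1).index_dvd_card
  -- the isomorphism with the functions
  let φ : SupE F E T ≃+ ({w : HeightOneSpectrum (𝓞 E) // w.under (𝓞 F) ∈ T} → ℤ) :=
    { toFun := fun D w => (D : Dv E) w.1
      invFun := fun a => ⟨Finsupp.ofSupportFinite (fun w => if h : w.under (𝓞 F) ∈ T then a ⟨w, h⟩ else 0) (by
          refine Set.Finite.subset (s := {w : HeightOneSpectrum (𝓞 E) | w.under (𝓞 F) ∈ T}) hXf ?_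
          intro w hw
          by_contra h
          exact hw (dif_neg h)), by
          intro w hw
          rw [Finsupp.ofSupportFinite_coe, dif_neg hw]⟩
      left_inv := by
        intro D
        apply Subtype.ext
        ext w
        change (if h : w.under (𝓞 F) ∈ T then (D : Dv E) w else 0) = (D : Dv E) w
        split_ifs with h
        · rfl
        · exact (D.2 w h).symm
      right_inv := by
        intro a
        funext w
        change (if h : w.1.under (𝓞 F) ∈ T then a ⟨w.1, h⟩ else 0) = a w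
        rw [dif_pos w.2]
      map_add' := by
        intro D D'
        rfl }
  let τ : AddMonoid.End ({w : HeightOneSpectrum (𝓞 E) // w.under (𝓞 F) ∈ T} → ℤ) :=
    { toFun := fun a w => a (e w)
      map_zero' := rfl
      map_add' := fun _ _ => rfl }
  have hφ : ∀ D, φ (ι D) = τ (φ D) := by
    intro D
    funext w
    change ((ι D : SupE F E T) : Dv E) w.1 = (D : Dv E) (act σ⁻¹ w.1)
    rw [hι D, sD_apply]
  obtain ⟨hq0, hq1⟩ := q_equiv φ ι τ hφ (Module.finrank F E)
  have hcard : ∀ y : T, Nat.card {x // π x = y} * (Module.finrank F E / Nat.card {x // π x = y}) =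
      Module.finrank F E := fun y => Nat.mul_div_cancel' (hdiv y)
  obtain ⟨h1, h0⟩ := hperm _ _ e (Module.finrank F E) π (fun y => Module.finrank F E / Nat.card {x // π x = y}) τ
    hn0 hen hπ horb hcard (fun _ _ => rfl)
  rw [hq0, hq1, h0, h1]
  refine ⟨Finset.prod_ne_zero_iff.2 fun y _ h => ?_, rfl⟩
  have h2 := hcard y
  rw [h, mul_zero] at h2
  omega

/-- job SD of project AR -/
theorem sd (hperm : S_Perm) : S_SD := by
  intro F E _ _ _ _ _ _ σ hσ
  exact ⟨prin_sE σ, nmD_sD σ, puD_apply, fun N hN D hD => tr_sD hσ hN hD, fun N hN c hc => prin_up hN hc,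
    fun D hD => exists_puD hσ hD, fun T hT ι hι => q_SupE hperm hσ hT ι hι⟩

end

end Pool.Agent.Q149.AR
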