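import Pool.Agent.Q149.AR.VA2
import Pool.Agent.Q92.AR.Stm2

/-! # Project AR, job VA: a cohomologically trivial congruence subgroup -/

set_option autoImplicit false
set_option linter.unusedSectionVars false
set_option linter.deprecated false

namespace Pool.Agent.Q149.AR

open NumberField IsDedekindDomain Pool.Agent.Q92.AR

section
variable {F E : Type} [Field F] [NumberField F] [Field E] [NumberField E] [Algebra F E]
  {b : Module.Basis (E ≃ₐ[F] E) F E} {N : ℕ}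

/-- the data: a normal basis of integers, `N` a multiple of the denominator of the coordinates -/
structure Dat (b : Module.Basis (E ≃ₐ[F] E) F E) (N : ℕ) : Prop where
  fin : Finite (E ≃ₐ[F] E)
  hb : ∀ g, b g = g (b 1)
  hi : IsIntegral ℤ (b 1)
  hN : 2 ≤ N
  hR : ∀ x : E, x ∈ RR E N → (N : E) * x ∈ MM b N

theorem Dat.sub (h : Dat b N) {x : E} (hx : x ∈ MM b N) : x ∈ RR E N :=
  have := h.fin
  MM_le_RR h.hb h.hi hx

theorem Dat.sub_mul (h : Dat b N) {x y : E} (hx : x ∈ MM b N) (hy : y ∈ RR E N) :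
    (N : E) * (x * y) ∈ MM b N := h.hR _ ((RR E N).mul_mem (h.sub hx) hy)

theorem natCast_mem (k : ℕ) : (k : E) ∈ RR E N := by
  exact _root_.natCast_mem (RR E N) k

/-- `N ^ k R ⊆ M` for `k ≥ 1` -/
theorem Dat.pow_mul (h : Dat b N) {k : ℕ} (hk : k ≠ 0) {x : E} (hx : x ∈ RR E N) : (N : E) ^ k * x ∈ MM b N := by
  obtain ⟨j, rfl⟩ := Nat.exists_eq_succ_of_ne_zero hk
  have : (N : E) ^ (j + 1) * x = (N : E) * ((N : E) ^ j * x) := by ring
  rw [Nat.succ_eq_add_one, this]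
  exact h.hR _ ((RR E N).mul_mem ((RR E N).pow_mem (natCast_mem N) j) hx)

/-- the inverse of `1 + N^k a` is `1 + N^k a'`, `a' ∈ M`, for `a ∈ M`, `k ≥ 1` -/
theorem Dat.inv (h : Dat b N) {k : ℕ} (hk : k ≠ 0) {a : E} (ha : a ∈ MM b N) :
    (1 + (N : E) ^ k * a)⁻¹ ∈ RR E N ∧ 1 + (N : E) ^ k * a ≠ 0 := by
  obtain ⟨j, rfl⟩ := Nat.exists_eq_succ_of_ne_zero hk
  have hN := h.hN
  have e : (N : E) ^ (j.succ) * a = (N : E) * ((N : E) ^ j * a) := by rw [Nat.succ_eq_add_one]; ring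
  have hm : (N : E) ^ j * a ∈ RR E N := (RR E N).mul_mem ((RR E N).pow_mem (natCast_mem N) j) (h.sub ha)
  rw [e]
  exact ⟨inv_mem_RR (by omega) hm, one_add_ne_zero hN hm⟩

/-- `M` is stable under multiplication by the inverse of `1 + N^k a` -/
theorem Dat.mul_inv (h : Dat b N) {k : ℕ} (hk : k ≠ 0) {a m : E} (ha : a ∈ MM b N) (hm : m ∈ MM b N) :
    m * (1 + (N : E) ^ k * a)⁻¹ ∈ MM b N := by
  obtain ⟨h1, h0⟩ := h.inv hk ha
  have e : m * (1 + (N : E) ^ k * a)⁻¹ = m - (N : E) ^ k * (m * a * (1 + (N : E) ^ k * a)⁻¹) := by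
    field_simp
    ring
  rw [e]
  exact (MM b N).sub_mem hm (h.pow_mul hk ((RR E N).mul_mem ((RR E N).mul_mem (h.sub hm) (h.sub ha)) h1))

/-- the group `1 + N^k M` -/
def VV (h : Dat b N) (k : ℕ) (hk : k ≠ 0) : Subgroup Eˣ where
  carrier := {x | ∃ m ∈ MM b N, (x : E) = 1 + (N : E) ^ k * m}
  mul_mem' := by
    rintro x y ⟨m, hm, hx⟩ ⟨m', hm', hy⟩
    refine ⟨m + m' + (N : E) ^ k * (m * m'), ?_, ?_⟩
    · exact (MM b N).add_mem ((MM b N).add_mem hm hm') (h.pow_mul hk ((RR E N).mul_mem (h.sub hm) (h.sub hm')))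
    · rw [Units.val_mul, hx, hy]
      ring
  one_mem' := ⟨0, (MM b N).zero_mem, by simp⟩
  inv_mem' := by
    rintro x ⟨m, hm, hx⟩
    refine ⟨-(m * (1 + (N : E) ^ k * m)⁻¹), (MM b N).neg_mem (h.mul_inv hk hm hm), ?_⟩
    have h0 := (h.inv hk hm).2
    rw [Units.val_inv_eq_inv_val, hx]
    field_simp
    ring

theorem mem_VV (h : Dat b N) {k : ℕ} {hk : k ≠ 0} {x : Eˣ} :
    x ∈ VV h k hk ↔ ∃ m ∈ MM b N, (x : E) = 1 + (N : E) ^ k * m := Iff.rfl

theorem VV_anti (h : Dat b N) {k l : ℕ} {hk : k ≠ 0} {hl : l ≠ 0} (hkl : k ≤ l) : VV h l hl ≤ VV h k hk := by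
  rintro x ⟨m, hm, hx⟩
  obtain ⟨j, rfl⟩ := Nat.exists_eq_add_of_le hkl
  refine ⟨(N : E) ^ j * m, ?_, by rw [hx]; ring⟩
  rcases Nat.eq_zero_or_pos j with rfl | hj
  · simpa using hm
  · exact h.pow_mul (by omega) (h.sub hm)

theorem VV_map (h : Dat b N) {k : ℕ} {hk : k ≠ 0} {x : Eˣ} (hx : x ∈ VV h k hk) (g : E ≃ₐ[F] E) :
    Units.map (g : E →* E) x ∈ VV h k hk := by
  obtain ⟨m, hm, e⟩ := hx
  have := h.fin
  refine ⟨g m, map_mem_MM h.hb hm g, ?_⟩
  change g (x : E) = _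
  rw [e, map_add, map_one, map_mul, map_pow, map_natCast]

/-- expansion of a product -/
theorem prod_expand {ι : Type*} (S : Finset ι) (k : ℕ) (a : ι → E) (ha : ∀ i, a i ∈ RR E N) :
    ∃ r ∈ RR E N, ∏ i ∈ S, (1 + (N : E) ^ k * a i) = 1 + (N : E) ^ k * (∑ i ∈ S, a i) + (N : E) ^ (2 * k) * r := by
  classical
  induction S using Finset.induction_on with
  | empty => exact ⟨0, (RR E N).zero_mem, by simp⟩
  | insert i s hi ih =>
      obtain ⟨r, hr, e⟩ := ih
      refine ⟨r + a i * (∑ i ∈ s, a i) + (N : E) ^ k * (a i * r), ?_, ?_⟩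
      · have h1 : ∑ i ∈ s, a i ∈ RR E N := (RR E N).sum_mem fun i _ => ha i
        exact (RR E N).add_mem ((RR E N).add_mem hr ((RR E N).mul_mem (ha i) h1))
          ((RR E N).mul_mem ((RR E N).pow_mem (natCast_mem N) k) ((RR E N).mul_mem (ha i) hr))
      · rw [Finset.prod_insert hi, Finset.sum_insert hi, e]
        ring

/-- **the step**: an element of `V_k` of norm one is, up to `V_(k+1)`, of the form `σ y / y`, `y ∈ V_k` -/
theorem step (h : Dat b N) [Fintype (E ≃ₐ[F] E)] {σ : E ≃ₐ[F] E} (hσ : ∀ g : E ≃ₐ[F] E, ∃ i : ℕ, σ ^ i = g)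
    {k : ℕ} (hk : 2 ≤ k) {x : Eˣ} (hx : x ∈ VV h k (by omega)) (hn : ∏ g : E ≃ₐ[F] E, g (x : E) = 1) :
    ∃ y ∈ VV h k (by omega), x * y / Units.map (σ : E →* E) y ∈ VV h (k + 1) (by omega) := by
  classical
  obtain ⟨a, ha, hxa⟩ := hx
  have hN := h.hN
  have hNE : (N : E) ≠ 0 := Nat.cast_ne_zero.2 (by omega)
  have hfin := h.fin
  -- the trace of `a`
  obtain ⟨r, hr, hprod⟩ := prod_expand (N := N) (Finset.univ : Finset (E ≃ₐ[F] E)) k (fun g => g a)
    (fun g => map_mem_RR (h.sub ha) g)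
  have e1 : ∏ g : E ≃ₐ[F] E, (1 + (N : E) ^ k * g a) = 1 := by
    refine Eq.trans (Finset.prod_congr rfl fun g _ => ?_) hn
    rw [hxa, map_add, map_one, map_mul, map_pow, map_natCast]
  rw [e1] at hprod
  have htr : ∑ g : E ≃ₐ[F] E, g a = (N : E) * ((N : E) ^ (k - 1) * (-r)) := by
    have h2 : (N : E) ^ (2 * k) = (N : E) ^ k * ((N : E) * (N : E) ^ (k - 1)) := by
      rw [← pow_succ', ← pow_add]; congr 1; omega
    have h3 : (N : E) ^ k * (∑ g : E ≃ₐ[F] E, g a + (N : E) * (N : E) ^ (k - 1) * r) = 0 := by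
      have := hprod
      rw [h2] at this
      linear_combination -this
    have h4 := (mul_eq_zero.1 h3).resolve_left (pow_ne_zero _ hNE)
    linear_combination h4
  have hm0 : (N : E) ^ (k - 1) * (-r) ∈ MM b N := h.pow_mul (by omega) ((RR E N).neg_mem hr)
  -- the sum of the coordinates
  set T : F := ∑ g : E ≃ₐ[F] E, b.repr a g with hT
  have hTc : ∀ x : E, b.repr (∑ g : E ≃ₐ[F] E, g x) 1 = ∑ g : E ≃ₐ[F] E, b.repr x g := by
    intro x
    rw [map_sum, Finsupp.finset_sum_apply]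
    have : ∀ g : E ≃ₐ[F] E, b.repr (g x) 1 = b.repr x g⁻¹ := fun g => by
      rw [repr_map h.hb, mul_one]
    rw [Finset.sum_congr rfl fun g _ => this g]
    exact Fintype.sum_equiv (Equiv.inv _) _ _ (fun g => rfl)
  obtain ⟨e, he, hTe⟩ : ∃ e ∈ RR F N, T = (N : F) * e := by
    refine ⟨b.repr ((N : E) ^ (k - 1) * (-r)) 1, hm0 1, ?_⟩
    rw [hT, ← hTc, htr]
    have : (N : E) * ((N : E) ^ (k - 1) * (-r)) = (N : F) • ((N : E) ^ (k - 1) * (-r)) := by
      rw [Algebra.smul_def, map_natCast]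
    rw [this, map_smul, Finsupp.smul_apply, smul_eq_mul]
  -- `a = T θ + (σ - 1) c`
  choose i hi using hσ
  set c : E := ∑ g : E ≃ₐ[F] E, b.repr a g • ∑ j ∈ Finset.range (i g), b (σ ^ j) with hc
  have hcM : c ∈ MM b N := by
    refine (MM b N).sum_mem fun g _ => smul_mem_MM b (ha g) ?_
    exact (MM b N).sum_mem fun j _ => basis_mem_MM b _
  have hac : a = T • b 1 + (σ c - c) := by
    have h1 : a = ∑ g : E ≃ₐ[F] E, b.repr a g • b g := (b.sum_repr a).symm
    have h2 : ∀ g : E ≃ₐ[F] E, b g = b 1 + (σ (∑ j ∈ Finset.range (i g), b (σ ^ j)) -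
        ∑ j ∈ Finset.range (i g), b (σ ^ j)) := by
      intro g
      rw [map_sum]
      have h3 : ∀ j ∈ Finset.range (i g), σ (b (σ ^ j)) = b (σ ^ (j + 1)) := fun j _ => by
        rw [h.hb (σ ^ j), h.hb (σ ^ (j + 1)), pow_succ', AlgEquiv.mul_apply]
      rw [Finset.sum_congr rfl h3, ← Finset.sum_sub_distrib, Finset.sum_range_sub (fun j => b (σ ^ j)), hi g, pow_zero]
      ring
    have h4 : σ c = ∑ g : E ≃ₐ[F] E, b.repr a g • σ (∑ j ∈ Finset.range (i g), b (σ ^ j)) := by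
      rw [hc, map_sum]
      refine Finset.sum_congr rfl fun g _ => ?_
      rw [Algebra.smul_def, Algebra.smul_def, map_mul, AlgEquiv.commutes]
    rw [h4, hc, ← Finset.sum_sub_distrib, hT, Finset.sum_smul, ← Finset.sum_add_distrib]
    conv_lhs => rw [h1]
    refine Finset.sum_congr rfl fun g _ => ?_
    conv_lhs => rw [h2 g]
    rw [smul_add, smul_sub]
  -- the element
  obtain ⟨-, hy0⟩ := h.inv (by omega : k ≠ 0) hcM
  have hσcM : σ c ∈ MM b N := map_mem_MM h.hb hcM σ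
  obtain ⟨hsinv, hs0⟩ := h.inv (by omega : k ≠ 0) hσcM
  refine ⟨Units.mk0 _ hy0, ⟨c, hcM, rfl⟩, ?_⟩
  set m1 : E := e • b 1 + (N : E) ^ (k - 1) * (a * c) with hm1
  have hm1M : m1 ∈ MM b N := (MM b N).add_mem (smul_mem_MM b he (basis_mem_MM b 1))
    (h.pow_mul (by omega) ((RR E N).mul_mem (h.sub ha) (h.sub hcM)))
  refine ⟨m1 * (1 + (N : E) ^ k * σ c)⁻¹, h.mul_inv (by omega) hσcM hm1M, ?_⟩
  have e2 : ((x * Units.mk0 _ hy0 / Units.map (σ : E →* E) (Units.mk0 _ hy0) : Eˣ) : E) =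
      (1 + (N : E) ^ k * a) * (1 + (N : E) ^ k * c) / (1 + (N : E) ^ k * σ c) := by
    rw [Units.val_div_eq_div_val, Units.val_mul, hxa]
    congr 1
    change σ (1 + (N : E) ^ k * c) = _
    rw [map_add, map_one, map_mul, map_pow, map_natCast]
  rw [e2, div_eq_iff hs0]
  have e3 : T • b 1 = (N : E) * (e • b 1) := by
    rw [hTe, Algebra.smul_def, Algebra.smul_def, map_mul, map_natCast, mul_assoc]
  have e4 : (N : E) ^ (k + 1) = (N : E) ^ k * (N : E) := pow_succ _ _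
  have e5 : (N : E) ^ k = (N : E) * (N : E) ^ (k - 1) := by
    rw [← pow_succ']; congr 1; omega
  have e6 : (1 + (N : E) ^ (k + 1) * (m1 * (1 + (N : E) ^ k * σ c)⁻¹)) * (1 + (N : E) ^ k * σ c) =
      1 + (N : E) ^ k * σ c + (N : E) ^ k * (N : E) * m1 := by
    rw [e4]
    field_simp
  rw [e6, hm1]
  rw [e3] at hac
  have e7 : (N : E) ^ k * (N : E) * (e • b 1 + (N : E) ^ (k - 1) * (a * c)) =
      (N : E) ^ k * ((N : E) * (e • b 1)) + (N : E) ^ k * ((N : E) * (N : E) ^ (k - 1)) * (a * c) := by ring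
  rw [e7, ← e5]
  linear_combination (N : E) ^ k * hac

/-- the norm of `σ x / x` is one -/
theorem prod_map_div [Fintype (E ≃ₐ[F] E)] (σ : E ≃ₐ[F] E) (x : Eˣ) :
    ∏ g : E ≃ₐ[F] E, g (((Units.map (σ : E →* E) x / x : Eˣ)) : E) = 1 := by
  have h1 : ∀ g : E ≃ₐ[F] E, g (((Units.map (σ : E →* E) x / x : Eˣ)) : E) = (g * σ) (x : E) / g (x : E) := by
    intro g
    rw [Units.val_div_eq_div_val, map_div₀]
    rfl
  rw [Finset.prod_congr rfl fun g _ => h1 g, Finset.prod_div_distrib]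
  have h2 : ∏ g : E ≃ₐ[F] E, (g * σ) (x : E) = ∏ g : E ≃ₐ[F] E, g (x : E) :=
    Fintype.prod_equiv (Equiv.mulRight σ) _ _ (fun g => rfl)
  rw [h2, div_self]
  exact Finset.prod_ne_zero_iff.2 fun g _ => (map_ne_zero g).2 x.ne_zero

theorem grp_lemma {G : Type*} [CommGroup G] (a b x y : G) : a / x * y / b = (a / b) / (x / y) := by
  simp only [div_eq_mul_inv, mul_inv, inv_inv]
  ac_rfl

theorem grp_lemma2 {G : Type*} [CommGroup G] (x y1 y2 v : G) :
    x / (x / y1 / y2 * v) = y1 * y2 * v⁻¹ := by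
  rw [div_mul_eq_div_div, div_div_eq_mul_div, div_div_eq_mul_div, div_eq_mul_inv, mul_comm (x * y2) y1,
    mul_div_assoc, mul_div_assoc, mul_div_cancel]

/-- job VA of project AR -/
theorem va : S_VA := by
  intro F E _ _ _ _ _ _ σ hσ N0 hN0
  classical
  have hfin : Finite (E ≃ₐ[F] E) := inferInstance
  have hσ' : ∀ g : E ≃ₐ[F] E, ∃ i : ℕ, σ ^ i = g := fun g => by
    have h1 := hσ g
    rw [← mem_powers_iff_mem_zpowers] at h1
    exact h1
  obtain ⟨b, hb, hi⟩ := exists_normal_basis F E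
  obtain ⟨d, hd0, hd⟩ := exists_coord_den b
  obtain ⟨t, ht⟩ := Algebra.trace_surjective F E 1
  obtain ⟨e, he0, he⟩ := exists_natCast_mul_isIntegral t
  set N : ℕ := 2 * N0 * d * e with hNdef
  have hN1 : N ≠ 0 := by positivity
  have hN2 : 2 ≤ N := by
    have h1 : 2 ∣ N := ⟨N0 * d * e, by rw [hNdef]; ring⟩
    exact Nat.le_of_dvd (Nat.pos_of_ne_zero hN1) h1
  have hdN : d ∣ N := ⟨2 * N0 * e, by rw [hNdef]; ring⟩
  have h : Dat b N := ⟨hfin, hb, hi, hN2, fun x hx => smul_RR_le_MM b hd hdN hx⟩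
  have htN : (N : E) * t ∈ RR E N := by
    apply mem_RR_of_isIntegral
    have h1 : (N : E) * t = ((2 * N0 * d : ℕ) : ℤ) * ((e : E) * t) := by
      rw [hNdef]; push_cast; ring
    rw [h1]
    exact (isIntegral_algebraMap (x := ((2 * N0 * d : ℕ) : ℤ))).mul he
  refine ⟨N ^ 2, N ^ 3, pow_ne_zero _ hN1, pow_ne_zero _ hN1, ?_, pow_dvd_pow N (by norm_num), ⟨2, ?_⟩,
    VV h 2 two_ne_zero, ?_, ?_, ?_, ?_⟩
  · exact (Dvd.intro (2 * d * e) (by rw [hNdef]; ring) : N0 ∣ N).trans (dvd_pow_self N two_ne_zero)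
  · rw [← pow_mul]
    exact pow_dvd_pow N (by norm_num)
  · intro x hx
    exact VV_map h hx σ
  · rintro x ⟨m, hm, hx⟩
    rw [Cong_pow_iff hN1 two_ne_zero]
    exact ⟨m, h.sub hm, hx⟩
  · intro x hx
    rw [Cong_pow_iff hN1 three_ne_zero] at hx
    obtain ⟨r, hr, hx⟩ := hx
    exact ⟨(N : E) * r, h.hR r hr, by rw [hx]; ring⟩
  · intro x hx
    -- two steps
    obtain ⟨y1, hy1, hz1⟩ := step h hσ' le_rfl hx (prod_map_div σ x)
    obtain ⟨z1, hz1def⟩ : ∃ z1 : Eˣ, z1 = x / y1 := ⟨_, rfl⟩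
    have e1 : Units.map (σ : E →* E) x / x * y1 / Units.map (σ : E →* E) y1 =
        Units.map (σ : E →* E) z1 / z1 := by
      rw [hz1def, map_div]
      exact grp_lemma _ _ _ _
    rw [e1] at hz1
    obtain ⟨y2, hy2, hz2⟩ := step h hσ' (by norm_num) hz1 (prod_map_div σ z1)
    obtain ⟨z, hzdef⟩ : ∃ z : Eˣ, z = z1 / y2 := ⟨_, rfl⟩
    have e2 : Units.map (σ : E →* E) z1 / z1 * y2 / Units.map (σ : E →* E) y2 =
        Units.map (σ : E →* E) z / z := by
      rw [hzdef, map_div]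
      exact grp_lemma _ _ _ _
    rw [e2] at hz2
    -- `g z / z ∈ V_4` for all `g`
    have hall : ∀ i : ℕ, Units.map ((σ ^ i : E ≃ₐ[F] E) : E →* E) z / z ∈ VV h 4 (by norm_num) := by
      intro i
      induction i with
      | zero =>
        have : Units.map (((σ ^ 0 : E ≃ₐ[F] E)) : E →* E) z = z := by
          ext; rfl
        rw [this, div_self']
        exact one_mem _
      | succ i ih =>
        have h1 : Units.map (((σ ^ (i + 1) : E ≃ₐ[F] E)) : E →* E) z / z =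
            Units.map (σ : E →* E) (Units.map (((σ ^ i : E ≃ₐ[F] E)) : E →* E) z / z) *
              (Units.map (σ : E →* E) z / z) := by
          rw [map_div]
          have h2 : Units.map (((σ ^ (i + 1) : E ≃ₐ[F] E)) : E →* E) z =
              Units.map (σ : E →* E) (Units.map (((σ ^ i : E ≃ₐ[F] E)) : E →* E) z) := by
            ext
            change (σ ^ (i + 1)) (z : E) = σ ((σ ^ i) (z : E))
            rw [pow_succ', AlgEquiv.mul_apply]
          rw [h2, div_mul_div_cancel]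
        rw [h1]
        exact mul_mem (VV_map h ih σ) hz2
    have hall' : ∀ g : E ≃ₐ[F] E, ∃ m ∈ MM b N, g (z : E) = (z : E) * (1 + (N : E) ^ 4 * m) := by
      intro g
      obtain ⟨i, rfl⟩ := hσ' g
      obtain ⟨m, hm, e⟩ := hall i
      refine ⟨m, hm, ?_⟩
      rw [Units.val_div_eq_div_val, div_eq_iff z.ne_zero] at e
      change (σ ^ i) (z : E) = _ at e
      rw [e]
      ring
    choose m hm hgz using hall'
    -- the element of `F`
    set c0 : F := Algebra.trace F E (t * z) with hc0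
    have hc1 : algebraMap F E c0 = (z : E) * (1 + (N : E) ^ 2 * ((N : E) * ∑ g : E ≃ₐ[F] E, g ((N : E) * t) * m g)) := by
      rw [hc0, trace_eq_sum_automorphisms]
      have h1 : ∑ g : E ≃ₐ[F] E, g t = 1 := by
        rw [← trace_eq_sum_automorphisms, ht, map_one]
      have h2 : ∀ g : E ≃ₐ[F] E, g (t * z) = (z : E) * g t + (z : E) * ((N : E) ^ 2 * ((N : E) * (g ((N : E) * t) * m g))) := by
        intro g
        rw [map_mul, hgz g, map_mul, map_natCast]
        ring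
      rw [Finset.sum_congr rfl fun g _ => h2 g, Finset.sum_add_distrib, ← Finset.mul_sum, h1, ← Finset.mul_sum,
        ← Finset.mul_sum, ← Finset.mul_sum]
      ring
    have hm' : (N : E) * ∑ g : E ≃ₐ[F] E, g ((N : E) * t) * m g ∈ MM b N :=
      h.hR _ ((RR E N).sum_mem fun g _ => (RR E N).mul_mem (map_mem_RR htN g) (h.sub (hm g)))
    obtain ⟨-, hv0⟩ := h.inv two_ne_zero hm'
    have hc00 : c0 ≠ 0 := by
      intro h0
      rw [h0, map_zero] at hc1
      exact mul_ne_zero z.ne_zero hv0 hc1.symm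
    refine ⟨Units.mk0 c0 hc00, ?_⟩
    have e3 : x / up F E (Units.mk0 c0 hc00) = y1 * y2 * (Units.mk0 _ hv0)⁻¹ := by
      have h1 : up F E (Units.mk0 c0 hc00) = z * Units.mk0 _ hv0 := by
        ext
        exact hc1
      rw [h1, hzdef, hz1def]
      exact grp_lemma2 _ _ _ _
    rw [e3]
    exact mul_mem (mul_mem hy1 (VV_anti h (by norm_num) hy2)) (inv_mem ⟨_, hm', rfl⟩)

end

end Pool.Agent.Q149.AR
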