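import Pool.Agent.Q92.AR.Stm2

/-! # Project AR, job SD: the Galois action on divisors (basic lemmas) -/

set_option autoImplicit false
set_option linter.unusedSectionVars false
set_option linter.deprecated false

namespace Pool.Agent.Q149.AR

open NumberField IsDedekindDomain Pool.Agent.Q92.AR Pool.Agent.Q5.BR Pool.Agent.TeamU
open scoped nonZeroDivisors

section
variable {K : Type} [Field K] [NumberField K]

/-- the divisor of `x` in terms of the valuations -/
theorem prin_eq_neg_log (x : Kˣ) (v : HeightOneSpectrum (𝓞 K)) :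
    prin x v = -WithZero.log (v.valuation K (x : K)) := by
  classical
  have key : ∀ a : 𝓞 K, a ≠ 0 →
      FractionalIdeal.count K v (FractionalIdeal.spanSingleton (𝓞 K)⁰ (algebraMap (𝓞 K) K a)) =
        -WithZero.log (v.valuation K (algebraMap (𝓞 K) K a)) := by
    intro a ha
    rw [← FractionalIdeal.coeIdeal_span_singleton, FractionalIdeal.count_coe,
      HeightOneSpectrum.valuation_of_algebraMap, HeightOneSpectrum.intValuation_if_neg _ ha,
      WithZero.log_exp, neg_neg]
    intro h0
    exact ha (Ideal.span_singleton_eq_bot.1 h0)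
  rw [prin_apply]
  obtain ⟨a, b, hb, hab⟩ := IsFractionRing.div_surjective (A := 𝓞 K) (x : K)
  have hb0 : b ≠ 0 := nonZeroDivisors.ne_zero hb
  have hb' : algebraMap (𝓞 K) K b ≠ 0 := fun h0 =>
    hb0 (FaithfulSMul.algebraMap_injective (𝓞 K) K (by rw [h0, map_zero]))
  have ha' : algebraMap (𝓞 K) K a ≠ 0 := by
    intro h0
    rw [h0, zero_div] at hab
    exact x.ne_zero hab.symm
  have ha0 : a ≠ 0 := by
    rintro rfl
    exact ha' (map_zero _)
  have h1 : FractionalIdeal.spanSingleton (𝓞 K)⁰ (x : K) *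
      FractionalIdeal.spanSingleton (𝓞 K)⁰ (algebraMap (𝓞 K) K b) =
      FractionalIdeal.spanSingleton (𝓞 K)⁰ (algebraMap (𝓞 K) K a) := by
    rw [FractionalIdeal.spanSingleton_mul_spanSingleton, ← hab, div_mul_cancel₀ _ hb']
  have h2 := congrArg (FractionalIdeal.count K v) h1
  rw [FractionalIdeal.count_mul K v (FractionalIdeal.spanSingleton_ne_zero_iff.2 x.ne_zero)
    (FractionalIdeal.spanSingleton_ne_zero_iff.2 hb'), key a ha0,
    key b hb0] at h2
  have h3 : WithZero.log (v.valuation K (x : K)) = WithZero.log (v.valuation K (algebraMap (𝓞 K) K a))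
      - WithZero.log (v.valuation K (algebraMap (𝓞 K) K b)) := by
    rw [← hab, map_div₀, WithZero.log_div ((Valuation.ne_zero_iff _).2 ha')
      ((Valuation.ne_zero_iff _).2 hb')]
  rw [h3]
  linarith

end

section
variable {F E : Type} [Field F] [NumberField F] [Field E] [NumberField E] [Algebra F E]

theorem act_inv_act (g : E ≃ₐ[F] E) (w : HeightOneSpectrum (𝓞 E)) : act g⁻¹ (act g w) = w := by
  rw [← act_mul, inv_mul_cancel, act_one]

theorem act_act_inv (g : E ≃ₐ[F] E) (w : HeightOneSpectrum (𝓞 E)) : act g (act g⁻¹ w) = w := by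
  rw [← act_mul, mul_inv_cancel, act_one]

theorem act_injective (g : E ≃ₐ[F] E) :
    Function.Injective (act g : HeightOneSpectrum (𝓞 E) → HeightOneSpectrum (𝓞 E)) :=
  Function.LeftInverse.injective (g := act g⁻¹) (act_inv_act g)

theorem act_under (g : E ≃ₐ[F] E) (w : HeightOneSpectrum (𝓞 E)) :
    (act g w).under (𝓞 F) = w.under (𝓞 F) := by
  have h : Over w (w.under (𝓞 F)) := rfl
  have h2 := over_act g h
  apply HeightOneSpectrum.ext
  exact h2

theorem absNorm_act (g : E ≃ₐ[F] E) (w : HeightOneSpectrum (𝓞 E)) :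
    Ideal.absNorm (act g w).asIdeal = Ideal.absNorm w.asIdeal := by
  unfold act
  rw [actE_asIdeal, Ideal.absNorm_apply, Ideal.absNorm_apply, Submodule.cardQuot_apply, Submodule.cardQuot_apply]
  exact (Nat.card_congr (Ideal.quotientEquiv w.asIdeal _ (RingOfIntegers.mapRingEquiv g.toRingEquiv) rfl).toEquiv).symm

theorem rdeg_act (g : E ≃ₐ[F] E) (w : HeightOneSpectrum (𝓞 E)) : rdeg F (act g w) = rdeg F w := by
  have h1 := absNorm_rdeg (K := F) (act g w)
  have h2 := absNorm_rdeg (K := F) w
  rw [absNorm_act, act_under, h2] at h1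
  have h3 : 2 ≤ Ideal.absNorm (w.under (𝓞 F)).asIdeal := by
    have h4 : Ideal.absNorm (w.under (𝓞 F)).asIdeal ≠ 0 := by
      rw [ne_eq, Ideal.absNorm_eq_zero_iff]
      exact (w.under (𝓞 F)).ne_bot
    have h5 : Ideal.absNorm (w.under (𝓞 F)).asIdeal ≠ 1 := by
      rw [ne_eq, Ideal.absNorm_eq_one_iff]
      exact (w.under (𝓞 F)).isPrime.ne_top
    omega
  exact (Nat.pow_right_injective h3 h1).symm

theorem sD_apply (g : E ≃ₐ[F] E) (D : Dv E) (w : HeightOneSpectrum (𝓞 E)) :
    sD g D w = D (act g⁻¹ w) := by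
  classical
  have h : sD g D = Finsupp.mapDomain (act g) D := rfl
  rw [h]
  conv_lhs => rw [← act_act_inv g w]
  exact Finsupp.mapDomain_apply (act_injective g) D _

theorem sD_pow_apply (g : E ≃ₐ[F] E) (i : ℕ) (D : Dv E) (w : HeightOneSpectrum (𝓞 E)) :
    ((sD g) ^ i) D w = D (act (g ^ i)⁻¹ w) := by
  induction i generalizing w with
  | zero => rw [pow_zero, pow_zero, inv_one, act_one]; rfl
  | succ i ih =>
    rw [pow_succ', pow_succ, mul_inv_rev, act_mul]
    change sD g (((sD g) ^ i) D) w = _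
    rw [sD_apply, ih]
    have h : ∀ a b : E ≃ₐ[F] E, act a (act b w) = act (a * b) w := fun a b => (act_mul a b w).symm
    rw [h, h]
    congr 2
    rw [← mul_inv_rev, ← mul_inv_rev]
    congr 1
    rw [← pow_succ', ← pow_succ]

theorem puD_apply (D : Dv F) (w : HeightOneSpectrum (𝓞 E)) : puD F E D w = D (w.under (𝓞 F)) := by
  classical
  have h : (Finsupp.applyAddHom w).comp (puD F E) =
      (Finsupp.applyAddHom (w.under (𝓞 F)) : Dv F →+ ℤ) := by
    refine Finsupp.addHom_ext fun v k => ?_
    change (puD F E (Finsupp.single v k)) w = (Finsupp.single v k) (w.under (𝓞 F))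
    unfold puD
    rw [Finsupp.liftAddHom_apply_single, AddMonoidHom.finsetSum_apply, Finsupp.finset_sum_apply, Finsupp.single_apply]
    have h1 : ∀ w' ∈ above E v, (Finsupp.singleAddHom w' k : Dv E) w = if w' = w then k else 0 := fun w' _ => by
      rw [Finsupp.singleAddHom_apply, Finsupp.single_apply]
    rw [Finset.sum_congr rfl h1, Finset.sum_ite_eq' (above E v) w]
    simp only [mem_above, eq_comm]
  exact DFunLike.congr_fun h D

theorem nmD_apply (D : Dv E) (v : HeightOneSpectrum (𝓞 F)) :
    nmD F E D v = ∑ w ∈ above E v, (rdeg F w : ℤ) * D w := by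
  classical
  have h : (Finsupp.applyAddHom v).comp (nmD F E) =
      (∑ w ∈ above E v, (AddMonoidHom.mulLeft (rdeg F w : ℤ)).comp (Finsupp.applyAddHom w) : Dv E →+ ℤ) := by
    refine Finsupp.addHom_ext fun w' k => ?_
    change (nmD F E (Finsupp.single w' k)) v = _
    rw [nmD_single, AddMonoidHom.finsetSum_apply, Finsupp.single_apply]
    have h1 : ∀ w ∈ above E v, ((AddMonoidHom.mulLeft (rdeg F w : ℤ)).comp (Finsupp.applyAddHom w))
        (Finsupp.single w' k : Dv E) = if w' = w then (rdeg F w : ℤ) * k else 0 := fun w _ => by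
      change (rdeg F w : ℤ) * ((Finsupp.single w' k : Dv E) w) = _
      rw [Finsupp.single_apply]
      split_ifs <;> simp
    rw [Finset.sum_congr rfl h1, Finset.sum_ite_eq (above E v) w']
    simp only [mem_above]
  have h2 := DFunLike.congr_fun h D
  rw [AddMonoidHom.finsetSum_apply] at h2
  exact h2

end

end Pool.Agent.Q149.AR
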