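import Pool.Agent.Q92.AR.Def

/-! # Project AR, job VA: the semilocal ring of the elements integral at the primes dividing `N` -/

set_option autoImplicit false
set_option linter.unusedSectionVars false
set_option linter.deprecated false

namespace Pool.Agent.Q149.AR

open NumberField IsDedekindDomain Pool.Agent.Q92.AR

section
variable (E : Type) [Field E] [NumberField E]

/-- the elements `a / s`, `a` an integer, `s` prime to `N` -/
def RR (N : ℕ) : Subring E where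
  carrier := {x | ∃ s : ℕ, s.Coprime N ∧ IsIntegral ℤ ((s : E) * x)}
  mul_mem' := by
    rintro a b ⟨s, hs, ha⟩ ⟨t, ht, hb⟩
    refine ⟨s * t, Nat.Coprime.mul_left hs ht, ?_⟩
    have : ((s * t : ℕ) : E) * (a * b) = (s * a) * (t * b) := by push_cast; ring
    rw [this]
    exact ha.mul hb
  one_mem' := ⟨1, Nat.coprime_one_left N, by simpa using isIntegral_one⟩
  add_mem' := by
    rintro a b ⟨s, hs, ha⟩ ⟨t, ht, hb⟩
    refine ⟨s * t, Nat.Coprime.mul_left hs ht, ?_⟩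
    have : ((s * t : ℕ) : E) * (a + b) = ((t : ℤ) : E) * (s * a) + ((s : ℤ) : E) * (t * b) := by
      push_cast; ring
    rw [this]
    exact ((isIntegral_algebraMap (x := (t : ℤ))).mul ha).add ((isIntegral_algebraMap (x := (s : ℤ))).mul hb)
  zero_mem' := ⟨1, Nat.coprime_one_left N, by simpa using isIntegral_zero⟩
  neg_mem' := by
    rintro a ⟨s, hs, ha⟩
    refine ⟨s, hs, ?_⟩
    rw [mul_neg]
    exact ha.neg

variable {E}

theorem mem_RR {N : ℕ} {x : E} : x ∈ RR E N ↔ ∃ s : ℕ, s.Coprime N ∧ IsIntegral ℤ ((s : E) * x) := Iff.rfl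

theorem mem_RR_of_isIntegral {N : ℕ} {x : E} (h : IsIntegral ℤ x) : x ∈ RR E N :=
  ⟨1, Nat.coprime_one_left N, by simpa using h⟩

theorem val_natCast_eq_one {N s : ℕ} (h : s.Coprime N) {v : HeightOneSpectrum (𝓞 E)}
    (hv : (N : 𝓞 E) ∈ v.asIdeal) : v.valuation E (s : E) = 1 := by
  have h1 : (s : 𝓞 E) ∉ v.asIdeal := by
    intro hs
    have h2 : IsCoprime (s : ℤ) (N : ℤ) := Nat.isCoprime_iff_coprime.2 h
    obtain ⟨a, b, hab⟩ := h2
    apply v.isPrime.ne_top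
    rw [Ideal.eq_top_iff_one]
    have h3 : (1 : 𝓞 E) = (a : 𝓞 E) * (s : 𝓞 E) + (b : 𝓞 E) * (N : 𝓞 E) := by
      exact_mod_cast congrArg (Int.cast : ℤ → 𝓞 E) hab.symm
    rw [h3]
    exact v.asIdeal.add_mem (v.asIdeal.mul_mem_left _ hs) (v.asIdeal.mul_mem_left _ hv)
  have h4 := (v.valuation_eq_one_iff_notMem (K := E)).2 h1
  simpa using h4

theorem val_le_one_of_isIntegral {x : E} (h : IsIntegral ℤ x) (v : HeightOneSpectrum (𝓞 E)) :
    v.valuation E x ≤ 1 := by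
  have h1 := v.valuation_le_one (K := E) (⟨x, h⟩ : 𝓞 E)
  exact h1

theorem val_le_one {N : ℕ} {x : E} (h : x ∈ RR E N) {v : HeightOneSpectrum (𝓞 E)}
    (hv : (N : 𝓞 E) ∈ v.asIdeal) : v.valuation E x ≤ 1 := by
  obtain ⟨s, hs, hx⟩ := h
  have h1 := val_le_one_of_isIntegral hx v
  rw [map_mul, val_natCast_eq_one hs hv, one_mul] at h1
  exact h1

theorem exists_coprime_mem {N : ℕ} {D : Ideal (𝓞 E)} {a b : 𝓞 E} (ha : a ∈ D) (hab : a + (N : 𝓞 E) * b = 1)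
    (s : ℕ) (hs0 : s ≠ 0) (hs : (s : 𝓞 E) ∈ D) : ∃ t : ℕ, t.Coprime N ∧ (t : 𝓞 E) ∈ D := by
  induction s using Nat.strong_induction_on with
  | _ s ih =>
    by_cases hc : s.Coprime N
    · exact ⟨s, hc, hs⟩
    · obtain ⟨p, hp, ⟨s1, rfl⟩, ⟨N', rfl⟩⟩ := Nat.Prime.not_coprime_iff_dvd.1 hc
      have hs1 : s1 ≠ 0 := by rintro rfl; simp at hs0
      refine ih s1 ?_ hs1 ?_
      · have := hp.two_le
        nlinarith [Nat.pos_of_ne_zero hs1]
      · have h1 : (s1 : 𝓞 E) = (s1 : 𝓞 E) * a + (N' : 𝓞 E) * b * ((p * s1 : ℕ) : 𝓞 E) := by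
          calc (s1 : 𝓞 E) = (s1 : 𝓞 E) * (a + ((p * N' : ℕ) : 𝓞 E) * b) := by rw [hab, mul_one]
            _ = _ := by push_cast; ring
        rw [h1]
        exact D.add_mem (D.mul_mem_left _ ha) (D.mul_mem_left _ hs)

/-- the denominators of `x` -/
def den (x : E) : Ideal (𝓞 E) where
  carrier := {d | ∃ n : 𝓞 E, x * (d : E) = n}
  add_mem' := by
    rintro a b ⟨n, hn⟩ ⟨m, hm⟩
    refine ⟨n + m, ?_⟩
    push_cast
    rw [mul_add, hn, hm]
  zero_mem' := ⟨0, by simp⟩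
  smul_mem' := by
    rintro c a ⟨n, hn⟩
    refine ⟨c * n, ?_⟩
    rw [smul_eq_mul]
    push_cast
    linear_combination (c : E) * hn

theorem mem_den {x : E} {d : 𝓞 E} : d ∈ den x ↔ ∃ n : 𝓞 E, x * (d : E) = n := Iff.rfl

theorem exists_den (x : E) : ∃ d : 𝓞 E, d ≠ 0 ∧ d ∈ den x := by
  obtain ⟨⟨n, d⟩, hnd⟩ := IsLocalization.surj (nonZeroDivisors (𝓞 E)) x
  exact ⟨d, nonZeroDivisors.ne_zero d.2, n, hnd⟩

theorem mem_RR_of_val {N : ℕ} (hN : N ≠ 0) {x : E}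
    (h : ∀ v : HeightOneSpectrum (𝓞 E), (N : 𝓞 E) ∈ v.asIdeal → v.valuation E x ≤ 1) : x ∈ RR E N := by
  have hN' : (N : 𝓞 E) ≠ 0 := Nat.cast_ne_zero.2 hN
  have htop : den x ⊔ Ideal.span {(N : 𝓞 E)} = ⊤ := by
    by_contra hne
    obtain ⟨P, hP, hle⟩ := Ideal.exists_le_maximal _ hne
    have hNP : (N : 𝓞 E) ∈ P := hle (Ideal.mem_sup_right (Ideal.mem_span_singleton_self _))
    have hP0 : P ≠ ⊥ := by
      rintro rfl
      exact hN' ((Ideal.mem_bot).1 hNP)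
    obtain ⟨n, d, hnd⟩ := HeightOneSpectrum.exists_primeCompl_mul_eq_of_integer
      (⟨P, hP.isPrime, hP0⟩ : HeightOneSpectrum (𝓞 E)) x (h _ hNP)
    exact d.2 (hle (Ideal.mem_sup_left ⟨n, hnd⟩))
  obtain ⟨a, ha, c, hc, hac⟩ := Submodule.mem_sup.1 ((Ideal.eq_top_iff_one _).1 htop)
  obtain ⟨b, rfl⟩ := Ideal.mem_span_singleton'.1 hc
  obtain ⟨d, hd0, hd⟩ := exists_den x
  have hDne : den x ≠ ⊥ := by
    intro h0
    rw [h0, Ideal.mem_bot] at hd
    exact hd0 hd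
  obtain ⟨t, ht, htD⟩ := exists_coprime_mem (N := N) (b := b) ha (by rw [← hac]; ring) (Ideal.absNorm (den x))
    (by rwa [ne_eq, Ideal.absNorm_eq_zero_iff]) (Ideal.absNorm_mem _)
  obtain ⟨n, hn⟩ := htD
  refine ⟨t, ht, ?_⟩
  have h1 : (t : E) * x = (n : E) := by
    rw [← hn]
    push_cast
    ring
  rw [h1]
  exact n.2

theorem mem_RR_iff_val {N : ℕ} (hN : N ≠ 0) {x : E} : x ∈ RR E N ↔
    ∀ v : HeightOneSpectrum (𝓞 E), (N : 𝓞 E) ∈ v.asIdeal → v.valuation E x ≤ 1 :=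
  ⟨fun h _ hv => val_le_one h hv, mem_RR_of_val hN⟩

theorem natCast_pow_mem {N k : ℕ} (hk : k ≠ 0) {v : HeightOneSpectrum (𝓞 E)} :
    ((N ^ k : ℕ) : 𝓞 E) ∈ v.asIdeal ↔ (N : 𝓞 E) ∈ v.asIdeal := by
  rw [Nat.cast_pow]
  exact ⟨fun h => v.isPrime.mem_of_pow_mem k h, fun h => v.asIdeal.pow_mem_of_mem h k (Nat.pos_of_ne_zero hk)⟩

theorem Cong_pow_iff {N k : ℕ} (hN : N ≠ 0) (hk : k ≠ 0) {x : E} :
    Cong (N ^ k) x ↔ ∃ r ∈ RR E N, x = 1 + (N : E) ^ k * r := by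
  have hNE : (N : E) ≠ 0 := Nat.cast_ne_zero.2 hN
  have hNk : (N : E) ^ k ≠ 0 := pow_ne_zero _ hNE
  constructor
  · intro h
    refine ⟨(x - 1) / (N : E) ^ k, ?_, by field_simp; ring⟩
    rw [mem_RR_iff_val hN]
    intro v hv
    have h1 := h v ((natCast_pow_mem hk).2 hv)
    rw [map_div₀]
    have h2 : v.valuation E ((N : E) ^ k) ≠ 0 := (Valuation.ne_zero_iff _).2 hNk
    refine div_le_one_of_le₀ ?_ zero_le
    push_cast at h1
    exact h1
  · rintro ⟨r, hr, rfl⟩ v hv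
    have hv' := (natCast_pow_mem hk).1 hv
    have h1 := val_le_one hr hv'
    rw [add_sub_cancel_left, map_mul]
    push_cast
    exact mul_le_of_le_one_right' h1

/-- the inverse of `1 + N a` -/
theorem inv_mem_RR {N : ℕ} (hN : N ≠ 0) {a : E} (ha : a ∈ RR E N) : (1 + (N : E) * a)⁻¹ ∈ RR E N := by
  rw [mem_RR_iff_val hN]
  intro v hv
  have h1 : v.valuation E (1 + (N : E) * a) = 1 := by
    apply val_eq_one hv
    rw [add_sub_cancel_left, map_mul]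
    exact mul_le_of_le_one_right' (val_le_one ha hv)
  rw [map_inv₀, h1, inv_one]

theorem one_add_ne_zero {N : ℕ} (hN : 2 ≤ N) {a : E} (ha : a ∈ RR E N) : 1 + (N : E) * a ≠ 0 := by
  intro h
  have hN0 : (N : 𝓞 E) ≠ 0 := Nat.cast_ne_zero.2 (by omega)
  have hne : Ideal.span {(N : 𝓞 E)} ≠ ⊤ := by
    intro htop
    rw [Ideal.span_singleton_eq_top] at htop
    obtain ⟨u, hu⟩ := htop
    have h1 : IsIntegral ℤ ((N : ℚ)⁻¹) := by
      have h2 : IsIntegral ℤ (algebraMap ℚ E ((N : ℚ)⁻¹)) := by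
        have h3 : algebraMap ℚ E ((N : ℚ)⁻¹) = (((u⁻¹ : (𝓞 E)ˣ) : 𝓞 E) : E) := by
          have h4 : ((u : 𝓞 E) : E) * (((u⁻¹ : (𝓞 E)ˣ) : 𝓞 E) : E) = 1 := by
            rw [← map_mul, Units.mul_inv, map_one]
          rw [hu] at h4
          push_cast at h4 ⊢
          exact (eq_inv_of_mul_eq_one_right h4).symm
        rw [h3]
        exact ((u⁻¹ : (𝓞 E)ˣ) : 𝓞 E).2
      exact (isIntegral_algebraMap_iff (algebraMap ℚ E).injective).1 h2
    obtain ⟨z, hz⟩ := IsIntegrallyClosed.isIntegral_iff.1 h1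
    have h5 : (z : ℚ) * N = 1 := by
      have h6 : (algebraMap ℤ ℚ z) = (z : ℚ) := rfl
      rw [← h6, hz]
      exact inv_mul_cancel₀ (by exact_mod_cast (by omega : N ≠ 0))
    have h7 : z * N = 1 := by exact_mod_cast h5
    have h8 := Int.eq_one_or_neg_one_of_mul_eq_one' h7
    omega
  obtain ⟨P, hP, hle⟩ := Ideal.exists_le_maximal _ hne
  have hNP : (N : 𝓞 E) ∈ P := hle (Ideal.mem_span_singleton_self _)
  have hP0 : P ≠ ⊥ := by
    rintro rfl
    exact hN0 ((Ideal.mem_bot).1 hNP)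
  have h1 : (⟨P, hP.isPrime, hP0⟩ : HeightOneSpectrum (𝓞 E)).valuation E (1 + (N : E) * a) = 1 := by
    apply val_eq_one hNP
    rw [add_sub_cancel_left, map_mul]
    exact mul_le_of_le_one_right' (val_le_one ha hNP)
  rw [h, map_zero] at h1
  exact zero_ne_one h1

end

end Pool.Agent.Q149.AR
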