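import Pool.Agent.Q149.AR.VA1

/-! # Project AR, job VA: the lattice with a normal basis -/

set_option autoImplicit false
set_option linter.unusedSectionVars false
set_option linter.deprecated false

namespace Pool.Agent.Q149.AR

open NumberField IsDedekindDomain Pool.Agent.Q92.AR

section den
variable {F : Type} [Field F] [NumberField F]

theorem exists_natCast_mul_isIntegral (y : F) : ∃ d : ℕ, d ≠ 0 ∧ IsIntegral ℤ ((d : F) * y) := by
  obtain ⟨d, hd0, n, hn⟩ := exists_den y
  refine ⟨Ideal.absNorm (Ideal.span {d}), ?_, ?_⟩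
  · rw [ne_eq, Ideal.absNorm_eq_zero_iff, Ideal.span_singleton_eq_bot]
    exact hd0
  · obtain ⟨c, hc⟩ := Ideal.mem_span_singleton'.1 (Ideal.absNorm_mem (Ideal.span {d}))
    have h1 : ((Ideal.absNorm (Ideal.span {d}) : ℕ) : F) = (c : F) * (d : F) := by
      rw [← map_mul, hc]
      simp
    rw [h1]
    have h2 : (c : F) * (d : F) * y = ((c * n : 𝓞 F) : F) := by
      push_cast
      linear_combination (c : F) * hn
    rw [h2]
    exact (c * n).2

theorem common_den {ι : Type*} (T : Finset ι) (f : ι → F) :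
    ∃ d : ℕ, d ≠ 0 ∧ ∀ y ∈ T, IsIntegral ℤ ((d : F) * f y) := by
  classical
  induction T using Finset.induction_on with
  | empty => exact ⟨1, one_ne_zero, fun y hy => absurd hy (Finset.notMem_empty y)⟩
  | insert a s ha ih =>
      obtain ⟨d, hd, h⟩ := ih
      obtain ⟨e, he, h'⟩ := exists_natCast_mul_isIntegral (f a)
      refine ⟨d * e, Nat.mul_ne_zero hd he, fun y hy => ?_⟩
      rcases Finset.mem_insert.1 hy with rfl | hy
      · have : ((d * e : ℕ) : F) * f y = ((d : ℤ) : F) * ((e : F) * f y) := by push_cast; ring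
        rw [this]
        exact (isIntegral_algebraMap (x := (d : ℤ))).mul h'
      · have : ((d * e : ℕ) : F) * f y = ((e : ℤ) : F) * ((d : F) * f y) := by push_cast; ring
        rw [this]
        exact (isIntegral_algebraMap (x := (e : ℤ))).mul (h y hy)

end den

section
variable {F E : Type} [Field F] [NumberField F] [Field E] [NumberField E] [Algebra F E]

theorem exists_normal_basis (F E : Type) [Field F] [NumberField F] [Field E] [NumberField E] [Algebra F E]
    [IsGalois F E] : ∃ b : Module.Basis (E ≃ₐ[F] E) F E, (∀ g, b g = g (b 1)) ∧ IsIntegral ℤ (b 1) := by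
  obtain ⟨d, hd, hi⟩ := exists_natCast_mul_isIntegral (IsGalois.normalBasis F E 1)
  have hdF : (d : F) ≠ 0 := Nat.cast_ne_zero.2 hd
  refine ⟨(IsGalois.normalBasis F E).unitsSMul fun _ => Units.mk0 (d : F) hdF, fun g => ?_, ?_⟩
  · rw [Module.Basis.unitsSMul_apply, Module.Basis.unitsSMul_apply, IsGalois.normalBasis_apply]
    rw [Units.smul_def, Units.smul_def, Algebra.smul_def, Algebra.smul_def, map_mul, AlgEquiv.commutes]
  · rw [Module.Basis.unitsSMul_apply, Units.smul_def, Algebra.smul_def]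
    simpa using hi

variable (b : Module.Basis (E ≃ₐ[F] E) F E)

/-- the coordinates have a common denominator on the integers -/
theorem exists_coord_den [Finite (E ≃ₐ[F] E)] : ∃ d : ℕ, d ≠ 0 ∧ ∀ x : E, IsIntegral ℤ x → ∀ g, IsIntegral ℤ ((d : F) * b.repr x g) := by
  classical
  have : Fintype (E ≃ₐ[F] E) := Fintype.ofFinite _
  obtain ⟨S, hS⟩ := (Module.Finite.fg_top : (⊤ : Submodule ℤ (𝓞 E)).FG)
  obtain ⟨d, hd, h⟩ := common_den (S ×ˢ (Finset.univ : Finset (E ≃ₐ[F] E)))
    (fun p => b.repr (p.1 : E) p.2)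
  refine ⟨d, hd, fun x hx g => ?_⟩
  have key : ∀ y : 𝓞 E, IsIntegral ℤ ((d : F) * b.repr (y : E) g) := by
    intro y
    have hy : y ∈ Submodule.span ℤ (S : Set (𝓞 E)) := by rw [hS]; trivial
    induction hy using Submodule.span_induction with
    | mem z hz => exact h (z, g) (Finset.mem_product.2 ⟨hz, Finset.mem_univ g⟩)
    | zero => simpa using isIntegral_zero
    | add y z _ _ hy hz =>
        have : (d : F) * b.repr ((y + z : 𝓞 E) : E) g = (d : F) * b.repr (y : E) g + (d : F) * b.repr (z : E) g := by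
          push_cast
          rw [map_add, Finsupp.add_apply, mul_add]
        rw [this]
        exact hy.add hz
    | smul a y _ hy =>
        have : (d : F) * b.repr ((a • y : 𝓞 E) : E) g = (a : F) * ((d : F) * b.repr (y : E) g) := by
          have h1 : ((a • y : 𝓞 E) : E) = (a : F) • (y : E) := by
            rw [zsmul_eq_mul, Algebra.smul_def]
            push_cast
            rw [map_intCast]
            congr 1
          rw [h1, map_smul, Finsupp.smul_apply, smul_eq_mul]
          ring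
        rw [this]
        exact (isIntegral_algebraMap (x := a)).mul hy
  exact key ⟨x, hx⟩

/-- the lattice of the elements whose coordinates are integral at `N` -/
def MM (N : ℕ) : AddSubgroup E where
  carrier := {x | ∀ g, b.repr x g ∈ RR F N}
  add_mem' {x y} hx hy g := by
    rw [map_add, Finsupp.add_apply]
    exact (RR F N).add_mem (hx g) (hy g)
  zero_mem' g := by
    rw [map_zero, Finsupp.zero_apply]
    exact (RR F N).zero_mem
  neg_mem' {x} hx g := by
    rw [map_neg, Finsupp.neg_apply]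
    exact (RR F N).neg_mem (hx g)

theorem mem_MM {N : ℕ} {x : E} : x ∈ MM b N ↔ ∀ g, b.repr x g ∈ RR F N := Iff.rfl

theorem smul_mem_MM {N : ℕ} {a : F} (ha : a ∈ RR F N) {x : E} (hx : x ∈ MM b N) : a • x ∈ MM b N := by
  intro g
  rw [map_smul, Finsupp.smul_apply, smul_eq_mul]
  exact (RR F N).mul_mem ha (hx g)

theorem basis_mem_MM {N : ℕ} (g : E ≃ₐ[F] E) : b g ∈ MM b N := by
  classical
  intro h
  rw [Module.Basis.repr_self, Finsupp.single_apply]
  split_ifs
  · exact (RR F N).one_mem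
  · exact (RR F N).zero_mem

theorem algebraMap_mem_RR {N : ℕ} {a : F} (ha : a ∈ RR F N) : algebraMap F E a ∈ RR E N := by
  obtain ⟨s, hs, h⟩ := ha
  refine ⟨s, hs, ?_⟩
  have : (s : E) * algebraMap F E a = algebraMap F E ((s : F) * a) := by
    rw [map_mul, map_natCast]
  rw [this]
  exact map_isIntegral_int (algebraMap F E) h

theorem map_mem_RR {N : ℕ} {x : E} (hx : x ∈ RR E N) (g : E ≃ₐ[F] E) : g x ∈ RR E N := by
  obtain ⟨s, hs, h⟩ := hx
  refine ⟨s, hs, ?_⟩
  have : (s : E) * g x = g ((s : E) * x) := by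
    rw [map_mul, map_natCast]
  rw [this]
  exact h.map g

variable {b} in
theorem MM_le_RR [Finite (E ≃ₐ[F] E)] (hb : ∀ g, b g = g (b 1)) (hi : IsIntegral ℤ (b 1)) {N : ℕ} {x : E} (hx : x ∈ MM b N) :
    x ∈ RR E N := by
  classical
  have : Fintype (E ≃ₐ[F] E) := Fintype.ofFinite _
  rw [← b.sum_repr x]
  refine (RR E N).sum_mem fun g _ => ?_
  rw [Algebra.smul_def]
  refine (RR E N).mul_mem (algebraMap_mem_RR (hx g)) ?_
  rw [hb g]
  exact map_mem_RR (mem_RR_of_isIntegral hi) g

theorem smul_RR_le_MM {d N : ℕ} (hd : ∀ x : E, IsIntegral ℤ x → ∀ g, IsIntegral ℤ ((d : F) * b.repr x g))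
    (hdN : d ∣ N) {x : E} (hx : x ∈ RR E N) : (N : E) * x ∈ MM b N := by
  obtain ⟨s, hs, h⟩ := hx
  obtain ⟨e, rfl⟩ := hdN
  intro g
  refine ⟨s, hs, ?_⟩
  have h1 := hd _ h g
  have h2 : ((d * e : ℕ) : E) * x = ((d * e : ℕ) : F) • x := by
    rw [Algebra.smul_def, map_natCast]
  have h3 : (s : E) * x = (s : F) • x := by
    rw [Algebra.smul_def, map_natCast]
  rw [h3, map_smul, Finsupp.smul_apply, smul_eq_mul] at h1
  rw [h2, map_smul, Finsupp.smul_apply, smul_eq_mul]
  have h4 : (s : F) * (((d * e : ℕ) : F) * b.repr x g) = ((e : ℤ) : F) * ((d : F) * ((s : F) * b.repr x g)) := by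
    push_cast; ring
  rw [h4]
  exact (isIntegral_algebraMap (x := (e : ℤ))).mul h1

variable {b} in
theorem repr_map [Finite (E ≃ₐ[F] E)] (hb : ∀ g, b g = g (b 1)) (g : E ≃ₐ[F] E) (x : E) (h : E ≃ₐ[F] E) :
    b.repr (g x) h = b.repr x (g⁻¹ * h) := by
  classical
  let f1 : E →ₗ[F] F := (Finsupp.lapply h ∘ₗ b.repr.toLinearMap) ∘ₗ g.toLinearMap
  let f2 : E →ₗ[F] F := (Finsupp.lapply (g⁻¹ * h) ∘ₗ b.repr.toLinearMap)
  have : f1 = f2 := by
    refine b.ext fun k => ?_
    change b.repr (g (b k)) h = b.repr (b k) (g⁻¹ * h)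
    have h1 : g (b k) = b (g * k) := by
      rw [hb k, hb (g * k), AlgEquiv.mul_apply]
    rw [h1, Module.Basis.repr_self, Module.Basis.repr_self, Finsupp.single_apply, Finsupp.single_apply]
    have h2 : g * k = h ↔ k = g⁻¹ * h := by rw [eq_inv_mul_iff_mul_eq]
    simp only [h2]
  exact LinearMap.congr_fun this x

variable {b} in
theorem map_mem_MM [Finite (E ≃ₐ[F] E)] (hb : ∀ g, b g = g (b 1)) {N : ℕ} {x : E} (hx : x ∈ MM b N) (g : E ≃ₐ[F] E) :
    g x ∈ MM b N := by
  intro h
  rw [repr_map hb]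
  exact hx _

end

end Pool.Agent.Q149.AR
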